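import Pool.Agent.Lib.MP_dee751_an.Classes

set_option autoImplicit false

open Pool.Agent.Lib.MP_dee751_an

namespace Pool.Agent.Results.MP_dee751_an.Growth

/-- An operator whose resolvent grows at most polynomially along some sequence tending to a point
of the spectrum is quasi-similar to an operator with a non-trivial invariant subspace. -/
theorem result (H : Type) [NormedAddCommGroup H] [InnerProductSpace ℂ H] [CompleteSpace H]
    (hH : ¬FiniteDimensional ℂ H) (B : H →L[ℂ] H) (l : ℂ) (hl : l ∈ spectrum ℂ B) (c : ℝ) (s : ℕ)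
    (h : ∀ ε > 0, ∃ μ ∈ resolventSet ℂ B, ‖μ - l‖ < ε ∧ ‖resolvent B μ‖ * ‖μ - l‖ ^ s ≤ c) :
    ∃ A : H →L[ℂ] H, QuasiSimilar A B ∧ HasInvSub A :=
  growth hH B l hl c s h

end Pool.Agent.Results.MP_dee751_an.Growth
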