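import Pool.Agent.Lib.MP_dee751_an.QMain

/-! An operator that is quasi-similar to an operator whose self-commutator is bounded on one side
by a trace class operator has a non-trivial closed invariant subspace, unless the self-commutators
of that operator and of its resolvents all have trace zero. -/

namespace Pool.Agent.Results.MP_dee751_an.NonzeroTrace

theorem result {H K : Type*} [NormedAddCommGroup H] [InnerProductSpace ℂ H] [CompleteSpace H]
    [NormedAddCommGroup K] [InnerProductSpace ℂ K] [CompleteSpace K]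
    (b : HilbertBasis ℕ ℂ H) (A : H →L[ℂ] H) (B : K →L[ℂ] K) (X : H →L[ℂ] K) (Y : K →L[ℂ] H)
    (hX : Function.Injective X) (hY : DenseRange Y) (hXA : X.comp A = B.comp X)
    (hAY : A.comp Y = Y.comp B) (P S : H →L[ℂ] H) (hP : P.IsPositive)
    (hs : Summable fun i => inner ℂ (b i) (P (b i)))
    (hD : (P + (star A * A - A * star A)).IsPositive ∨ (P - (star A * A - A * star A)).IsPositive)
    (hS : S = A ∨ ∃ z : ℂ, ‖A‖ < ‖z‖ ∧ S = resolvent A z)
    (h : ¬HasSum (fun i => inner ℂ (b i) ((star S * S - S * star S) (b i))) 0) :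
    ∃ N : Submodule ℂ K, IsClosed (N : Set K) ∧ N ≠ ⊥ ∧ N ≠ ⊤ ∧ ∀ x ∈ N, B x ∈ N :=
  Pool.Agent.Lib.MP_dee751_an.Q.transfer (Pool.Agent.Lib.MP_45cb44_an.Hy.not_finiteDimensional b)
    hX hY hXA hAY (Pool.Agent.Lib.MP_dee751_an.Q.pr_one_sided b hP hs hD hS h)

end Pool.Agent.Results.MP_dee751_an.NonzeroTrace
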