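import Pool.Agent.Results.MP_dee751_an.SeminormalPlusTraceClass

/-! The former hand-in `Seminormal` follows from `SeminormalPlusTraceClass`. -/

namespace Pool.Agent.Retired.MP_dee751_an.Seminormal

theorem result {H K : Type*} [NormedAddCommGroup H] [InnerProductSpace ℂ H] [CompleteSpace H]
    [NormedAddCommGroup K] [InnerProductSpace ℂ K] [CompleteSpace K]
    (hH : ¬FiniteDimensional ℂ H) (A : H →L[ℂ] H) (B : K →L[ℂ] K) (X : H →L[ℂ] K) (Y : K →L[ℂ] H)
    (hX : Function.Injective X) (hY : DenseRange Y) (hXA : X.comp A = B.comp X)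
    (hAY : A.comp Y = Y.comp B)
    (hA : (∀ x, ‖ContinuousLinearMap.adjoint A x‖ ≤ ‖A x‖) ∨
      ∀ x, ‖A x‖ ≤ ‖ContinuousLinearMap.adjoint A x‖) :
    ∃ N : Submodule ℂ K, IsClosed (N : Set K) ∧ N ≠ ⊥ ∧ N ≠ ⊤ ∧ ∀ x ∈ N, B x ∈ N :=
  Pool.Agent.Results.MP_dee751_an.SeminormalPlusTraceClass.result hH A 0 B X Y hX hY
    (by rwa [add_zero]) (by rwa [add_zero]) hA (fun _ => 0) (fun _ => 0) (by simp)
    (fun x => by simp)

end Pool.Agent.Retired.MP_dee751_an.Seminormal
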