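import Pool.Agent.Results.MP_dee751_an.GradedShift

/-! The former hand-in `WeightedShift` follows from `GradedShift`. -/

namespace Pool.Agent.Retired.MP_dee751_an.WeightedShift

theorem result {E H K : Type*} [NormedAddCommGroup E] [InnerProductSpace ℂ E]
    [FiniteDimensional ℂ E] [Nontrivial E]
    [NormedAddCommGroup H] [InnerProductSpace ℂ H] [CompleteSpace H]
    [NormedAddCommGroup K] [InnerProductSpace ℂ K] [CompleteSpace K]
    (V : ℤ → E →ₗᵢ[ℂ] H) (hV : IsHilbertSum ℂ (fun _ : ℤ => E) V)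
    (W : ℤ → E →L[ℂ] E) (A : H →L[ℂ] H) (hA : ∀ n v, A (V n v) = V (n + 1) (W n v))
    (hu : IsUnit A) (B : K →L[ℂ] K) (X : H →L[ℂ] K) (Y : K →L[ℂ] H)
    (hX : Function.Injective X) (hY : DenseRange Y) (hXA : X.comp A = B.comp X)
    (hAY : A.comp Y = Y.comp B) :
    ∃ N : Submodule ℂ K, IsClosed (N : Set K) ∧ N ≠ ⊥ ∧ N ≠ ⊤ ∧
      ∀ S : K →L[ℂ] K, S.comp B = B.comp S → ∀ x ∈ N, S x ∈ N := by
  have : CompleteSpace E := FiniteDimensional.complete ℂ E
  refine Pool.Agent.Results.MP_dee751_an.GradedShift.result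
    (fun n => LinearMap.range (V n).toLinearMap) (fun n => inferInstance)
    (fun m n h => Submodule.isOrtho_iff_inner_eq.2 ?_) ?_ A ?_ (fun h0 => ?_)
    B X Y hX hY hXA hAY
  · rintro _ ⟨a, rfl⟩ _ ⟨b, rfl⟩
    exact hV.OrthogonalFamily h a b
  · rw [Submodule.dense_iff_topologicalClosure_eq_top,
      ← hV.OrthogonalFamily.range_linearIsometry, LinearMap.range_eq_top]
    exact hV.surjective_isometry
  · rintro n _ ⟨v, rfl⟩
    exact ⟨W n v, (hA n v).symm⟩
  · obtain ⟨v, hv⟩ := exists_ne (0 : E)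
    obtain ⟨C, hC⟩ := hu.exists_left_inv
    have := congrArg (fun T : H →L[ℂ] H => T (V 0 v)) hC
    simp [h0] at this
    exact hv ((V 0).injective (by simpa using this.symm))

end Pool.Agent.Retired.MP_dee751_an.WeightedShift
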